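import Pool.Agent.Lib.MP_926cc3_nt.RS.CE

set_option autoImplicit false

open Filter Topology MeasureTheory

namespace Pool.Agent.Lib.MP_926cc3_nt.Old.AdaptedSets

open Pool.Agent.Lib.MP_926cc3_nt.RS

/-- Universality of Shanks' law.  Let `R` be any random set of natural numbers adapted to a
filtration `ℱ` (whether `n` belongs to `R` is known at time `n`), and let
`predDensity μ ℱ R n = P(n ∈ R | ℱ (n - 1))` be its predictable density.  Almost surely: if the
predictable density tends to `0`, and if for every `c > 0` its sum over the window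
`[a, a + c log² a)` is `(c + o(1)) log a`, then Shanks' law `log p(g) ~ √g` holds for `R`. -/
theorem result {Ω : Type*} {m0 : MeasurableSpace Ω} (μ : Measure Ω) [IsProbabilityMeasure μ]
    (ℱ : Filtration ℕ m0) (R : Ω → Set ℕ) (hR : ∀ n, MeasurableSet[ℱ n] {ω | n ∈ R ω}) :
    ∀ᵐ ω ∂μ, Tendsto (fun n => predDensity μ ℱ R n ω) atTop (𝓝 0) →
      Regular (fun n => predDensity μ ℱ R n ω) → ShanksLaw (R ω) :=
  CE.shanks hR

end Pool.Agent.Lib.MP_926cc3_nt.Old.AdaptedSets
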