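import Pool.Agent.Lib.MP_926cc3_nt.TH.GR2
import Pool.Agent.Lib.MP_3efbeb_nt.GU.All
import Pool.Agent.Lib.MP_926cc3_nt.RS.Exist

set_option autoImplicit false

open Filter Topology MeasureTheory ProbabilityTheory Asymptotics

namespace Pool.Agent.Lib.MP_926cc3_nt.Old.GrowingSieve

open Pool.Agent.Lib.MP_926cc3_nt.RS Pool.Agent.Lib.MP_926cc3_nt.TH
  Pool.Agent.Lib.MP_3efbeb_nt.GL Pool.Agent.Lib.MP_3efbeb_nt.GU

universe u

/-- The elements of `S` whose `g` immediate predecessors are all greater than `1` and not in `S`;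
`firstElt S g` is the least of them. -/
def afterGap (S : Set ℕ) (g : ℕ) : Set ℕ :=
  {p : ℕ | p ∈ S ∧ ∀ i : ℕ, 1 ≤ i → i ≤ g → (1 < p - i ∧ p - i ∉ S)}

/-- `W n` is at most `(log n) ^ o(1)`. -/
def Below (W : ℕ → ℕ) : Prop :=
  (fun n : ℕ => Real.log ((W n : ℝ) + 1)) =o[atTop] (fun n : ℕ => Real.log (Real.log n))

/-- The sharp threshold for Shanks' law in the sieve of Eratosthenes whose primes up to a level
`W n` sieve exactly and whose later numbers sieve at random, for all levels up to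
`exp ((log n) ^ b)`, `b < 1`.
`IsLevel W` means: `W` is nondecreasing and there are `b < 1` and `C` with
`W m ≤ C (W n) ^ ((log m / log n) ^ b)` for all large `n` and all `m ≥ n`.
Let `W` be a level.  There is `c < 1`, depending only on `W`, such that for all independent events
`A m n` with `P(A m n) = 1/m` for `W n < m < n`, almost surely the set of the kept numbers obeys
Shanks' law `log p(g) ~ √g` if and only if `W n ≤ (log n) ^ o(1)`, and if this is not the case then
almost surely `log p(g) ≤ c √g` for infinitely many `g`.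
The objects exist: `N` and `max N ⌊log log n⌋` are levels below the threshold,
`max N ⌊log n / 2⌋` and `max N ⌊exp ((log n) ^ a)⌋`, `0 < a < 1`, are levels above it, and there
are such events, on a single probability space for all `W`. -/
theorem result :
    (∀ W : ℕ → ℕ, IsLevel W → ∃ c : ℝ, 0 < c ∧ c < 1 ∧
      ∀ (Ω : Type u) [MeasurableSpace Ω] (μ : Measure Ω) [IsProbabilityMeasure μ]
      (A : ℕ → ℕ → Set Ω), (∀ m n, MeasurableSet (A m n)) →
      iIndepSet (fun q : ℕ × ℕ => A q.1 q.2) μ →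
      (∀ m n, W n < m → m < n → μ.real (A m n) = 1 / m) →
      (∀ᵐ ω ∂μ, (ShanksLaw (growSet W A ω) ↔ Below W)) ∧
      (¬ Below W → ∀ᵐ ω ∂μ, ∃ᶠ g : ℕ in atTop, (afterGap (growSet W A ω) g).Nonempty ∧
        Real.log (firstElt (growSet W A ω) g) ≤ c * Real.sqrt g)) ∧
    ((∀ N : ℕ, (IsLevel (fun _ => N) ∧ Below (fun _ => N)) ∧
      (IsLevel (fun n => max N ⌊Real.log (Real.log n)⌋₊) ∧
        Below (fun n => max N ⌊Real.log (Real.log n)⌋₊)) ∧
      (IsLevel (fun n => max N ⌊Real.log n / 2⌋₊) ∧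
        ¬ Below (fun n => max N ⌊Real.log n / 2⌋₊)) ∧
      ∀ a : ℝ, 0 < a → a < 1 → IsLevel (fun n => max N ⌊Real.exp (Real.log n ^ a)⌋₊) ∧
        ¬ Below (fun n => max N ⌊Real.exp (Real.log n ^ a)⌋₊)) ∧
      ∃ (Ω : Type) (_ : MeasurableSpace Ω) (μ : Measure Ω) (A : ℕ → ℕ → Set Ω),
        IsProbabilityMeasure μ ∧ (∀ m n, MeasurableSet (A m n)) ∧
        iIndepSet (fun q : ℕ × ℕ => A q.1 q.2) μ ∧
        ∀ m n, 0 < m → m < n → μ.real (A m n) = 1 / m) := by
  refine ⟨?_, ?_, ?_⟩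
  · intro W hW
    obtain ⟨c, hc, hc1, h⟩ := GR2M.main.{u} hX hW
    refine ⟨c, hc, hc1, fun Ω _ μ _ A hA hI hP => ?_⟩
    obtain ⟨-, h2, h3⟩ := h Ω μ A hA hI hP
    refine ⟨?_, fun hb => ?_⟩
    · by_cases hb : Below W
      · filter_upwards [h2 hb] with ω hω
        exact ⟨fun _ => hb, fun _ => hω⟩
      · filter_upwards [h3 hb] with ω hω
        exact ⟨fun hs => absurd hs hω.1, fun hb' => absurd hb' hb⟩
    · filter_upwards [h3 hb] with ω hω
      exact hω.2
  · intro N
    refine ⟨⟨EXMM.level_const N, GROM.const_below N⟩,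
      ⟨EXMM.level_of_lev (GROM.lev_loglog N), GROM.loglog_below N⟩,
      ⟨EXMM.level_of_lev (lev_example N), GROM.log_above N⟩, ?_⟩
    intro a ha ha1
    exact ⟨EXMM.level_exp N ha ha1, GR2M.exp_above N ha⟩
  · obtain ⟨Ω, m0, μ, B, hμ, hB, hI, hp⟩ := Exist.events (ℕ × ℕ) (fun q => 1 / (q.1 : ℝ))
      (fun q => by positivity) (fun q => by
        rcases Nat.eq_zero_or_pos q.1 with h | h
        · rw [h]; norm_num
        · rw [div_le_one (by exact_mod_cast h)]; exact_mod_cast h)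
    refine ⟨Ω, m0, μ, fun m n => B (m, n), hμ, fun m n => hB _, hI, fun m n _ _ => hp (m, n)⟩

end Pool.Agent.Lib.MP_926cc3_nt.Old.GrowingSieve
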